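import Mathlib

/-!
# Chain independent sets

`L` is a join semilattice with bottom, `e : α → L`. The span of a finite set `B` over a base `H` is
`H ⊔ B.sup e`. A finite set `B` is chain independent over `H` if it can be ordered such that no
element lies in the span of its predecessors.
-/

namespace Pool.Agent.Helper82.Part

open Finset

variable {α L : Type*} [DecidableEq α] [SemilatticeSup L] [OrderBot L]

/-- chain independence over `H` -/
inductive CI (e : α → L) (H : L) : Finset α → Prop
  | empty : CI e H ∅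
  | insert {x : α} {B : Finset α} : CI e H B → ¬ e x ≤ H ⊔ B.sup e → CI e H (Insert.insert x B)

variable {e : α → L} {H K : L}

theorem CI.subset {B : Finset α} (h : CI e H B) : ∀ {A : Finset α}, A ⊆ B → CI e H A := by
  induction h with
  | empty =>
    intro A hA
    rw [subset_empty.1 hA]
    exact CI.empty
  | @insert x B hB hx ih =>
    intro A hA
    by_cases hxA : x ∈ A
    · have h1 : A.erase x ⊆ B := by
        intro y hy
        rcases mem_insert.1 (hA (mem_of_mem_erase hy)) with rfl | h
        · exact absurd rfl (ne_of_mem_erase hy)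
        · exact h
      have h2 := CI.insert (x := x) (ih h1) fun h => hx (h.trans (sup_le_sup_left (sup_mono h1) H))
      rwa [insert_erase hxA] at h2
    · refine ih fun y hy => ?_
      rcases mem_insert.1 (hA hy) with rfl | h
      · exact absurd hy hxA
      · exact h

theorem CI.mono {B : Finset α} (h : CI e K B) (hHK : H ≤ K) : CI e H B := by
  induction h with
  | empty => exact CI.empty
  | insert hB hx ih => exact CI.insert ih fun h => hx (h.trans (sup_le_sup_right hHK _))

/-- gluing -/
theorem CI.union {B O : Finset α} (hB : CI e H B) (hO : CI e K O) (hHK : H ≤ K)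
    (hBK : B.sup e ≤ K) : CI e H (B ∪ O) := by
  induction hO with
  | empty => simpa using hB
  | @insert x O hO hx ih =>
    rw [union_insert]
    refine CI.insert ih fun h => hx (h.trans ?_)
    rw [sup_union]
    exact sup_le (hHK.trans le_sup_left) (sup_le (hBK.trans le_sup_left) le_sup_right)

theorem CI.not_le {B : Finset α} (h : CI e H B) : ∀ x ∈ B, ¬ e x ≤ H := by
  induction h with
  | empty => simp
  | @insert x B hB hx ih =>
    intro y hy
    rcases mem_insert.1 hy with rfl | h
    · exact fun h => hx (h.trans le_sup_left)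
    · exact ih y h

/-- a partition of `V` into `k` chain independent sets over `H` -/
structure Cover (e : α → L) (H : L) (k : ℕ) (V : Finset α) (B : Fin k → Finset α) : Prop where
  ci : ∀ j, CI e H (B j)
  mem : ∀ x, x ∈ V ↔ ∃ j, x ∈ B j
  disj : ∀ x i j, x ∈ B i → x ∈ B j → i = j

/-- `k` disjoint subsets of `V` with the same span `C` over `H` -/
structure Span (e : α → L) (H : L) (k : ℕ) (V : Finset α) (C : L) (Y : Fin k → Finset α) :
    Prop where
  span : ∀ j, H ⊔ (Y j).sup e = C
  sub : ∀ j, Y j ⊆ V
  disj : ∀ x i j, x ∈ Y i → x ∈ Y j → i = j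

theorem Cover.sub {k : ℕ} {V : Finset α} {B : Fin k → Finset α} (h : Cover e H k V B) (j : Fin k) :
    B j ⊆ V := fun x hx => (h.mem x).2 ⟨j, hx⟩

/-- moving an element -/
theorem Cover.move {k : ℕ} {V : Finset α} {B : Fin k → Finset α} (h : Cover e H k V B) (j : Fin k)
    {x : α} (hx : x ∈ V) (hxj : ¬ e x ≤ H ⊔ (B j).sup e) :
    Cover e H k V (fun i => if i = j then insert x (B j) else (B i).erase x) := by
  refine ⟨fun i => ?_, fun y => ⟨fun hy => ?_, ?_⟩, fun y i i' hi hi' => ?_⟩
  · split_ifs
    · exact CI.insert (h.ci j) hxj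
    · exact (h.ci i).subset (erase_subset _ _)
  · by_cases hyx : y = x
    · exact ⟨j, by simp [hyx]⟩
    · obtain ⟨i, hi⟩ := (h.mem y).1 hy
      refine ⟨i, ?_⟩
      by_cases hij : i = j
      · subst hij; simp [hi]
      · simp [hij, hi, hyx]
  · rintro ⟨i, hi⟩
    split_ifs at hi with hij
    · rcases mem_insert.1 hi with rfl | hi
      · exact hx
      · exact h.sub j hi
    · exact h.sub i (mem_of_mem_erase hi)
  · split_ifs at hi hi' with h1 h2 h2
    · rw [h1, h2]
    · rcases mem_insert.1 hi with rfl | hi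
      · exact absurd rfl (ne_of_mem_erase hi')
      · exact h1.trans (h.disj y j i' hi (mem_of_mem_erase hi'))
    · rcases mem_insert.1 hi' with rfl | hi'
      · exact absurd rfl (ne_of_mem_erase hi)
      · exact (h.disj y i j (mem_of_mem_erase hi) hi').trans h2.symm
    · exact h.disj y i i' (mem_of_mem_erase hi) (mem_of_mem_erase hi')


open Classical in
/-- **Theorem X** (relative form). -/
theorem cover_or_span (e : α → L) (k : ℕ) : ∀ (n : ℕ) (V : Finset α) (H : L),
    V.card ≤ n → (∀ x ∈ V, ¬ e x ≤ H) →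
    (∃ B, Cover e H k V B) ∨ k = 0 ∨ ∃ Y C, C ≠ H ∧ Span e H k V C Y := by
  intro n
  induction n with
  | zero =>
    intro V H hV _
    have : V = ∅ := card_eq_zero.1 (Nat.le_zero.1 hV)
    subst this
    exact Or.inl ⟨fun _ => ∅, fun _ => CI.empty, by simp, by simp⟩
  | succ n ih =>
    intro V H hV hVH
    rcases Nat.eq_zero_or_pos k with rfl | hk
    · exact Or.inr (Or.inl rfl)
    rcases V.eq_empty_or_nonempty with rfl | ⟨w, hw⟩
    · exact Or.inl ⟨fun _ => ∅, fun _ => CI.empty, by simp, by simp⟩
    by_contra hcon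
    have hP : ¬ ∃ B, Cover e H k V B := fun h => hcon (Or.inl h)
    have hQ : ¬ ∃ Y C, C ≠ H ∧ Span e H k V C Y := fun h => hcon (Or.inr (Or.inr h))
    set H' := H ⊔ e w with hH'
    -- (a) all of `V` is spanned by `w` and `Y j`
    have ha : ∃ Y C, Span e H' k V C Y ∧ (∀ j, ∀ x ∈ Y j, ¬ e x ≤ H') ∧ ∀ x ∈ V, e x ≤ C := by
      have hex : ∃ m : ℕ, ∃ Y C, (Span e H' k V C Y ∧ ∀ j, ∀ x ∈ Y j, ¬ e x ≤ H') ∧
          (V.filter (fun x => e x ≤ C)).card = m :=
        ⟨_, fun _ => ∅, H', ⟨⟨by simp, by simp, by simp⟩, by simp⟩, rfl⟩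
      have hbd : ∀ m, (∃ Y C, (Span e H' k V C Y ∧ ∀ j, ∀ x ∈ Y j, ¬ e x ≤ H') ∧
          (V.filter (fun x => e x ≤ C)).card = m) → m ≤ V.card := by
        rintro m ⟨Y, C, -, rfl⟩
        exact card_filter_le _ _
      obtain ⟨Y, C, ⟨hY, hYH⟩, hm⟩ := Nat.findGreatest_spec (P := fun m => ∃ Y C,
        (Span e H' k V C Y ∧ ∀ j, ∀ x ∈ Y j, ¬ e x ≤ H') ∧
          (V.filter (fun x => e x ≤ C)).card = m) (hbd _ hex.choose_spec) hex.choose_spec
      set M := Nat.findGreatest (fun m => ∃ Y C,
        (Span e H' k V C Y ∧ ∀ j, ∀ x ∈ Y j, ¬ e x ≤ H') ∧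
          (V.filter (fun x => e x ≤ C)).card = m) V.card
      have hmax : ∀ Y' C', Span e H' k V C' Y' → (∀ j, ∀ x ∈ Y' j, ¬ e x ≤ H') →
          (V.filter (fun x => e x ≤ C')).card ≤ (V.filter (fun x => e x ≤ C)).card := by
        intro Y' C' h h'
        rw [hm]
        exact Nat.le_findGreatest (card_filter_le _ _) ⟨Y', C', ⟨h, h'⟩, rfl⟩
      refine ⟨Y, C, hY, hYH, ?_⟩
      by_contra hne
      push Not at hne
      obtain ⟨v, hv, hvC⟩ := hne
      have hH'C : H' ≤ C := (hY.span ⟨0, hk⟩) ▸ le_sup_left
      have hwC : e w ≤ C := le_sup_right.trans hH'C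
      set V1 := V.filter (fun x => e x ≤ C) with hV1
      set V2 := V.filter (fun x => ¬ e x ≤ C) with hV2
      have hc : V1.card + V2.card = V.card := card_filter_add_card_filter_not _
      have h1 : 0 < V1.card := card_pos.2 ⟨w, mem_filter.2 ⟨hw, hwC⟩⟩
      have h2 : 0 < V2.card := card_pos.2 ⟨v, mem_filter.2 ⟨hv, hvC⟩⟩
      rcases ih V1 H (by omega) (fun x hx => hVH x (mem_filter.1 hx).1) with ⟨B1, hB1⟩ | h | ⟨Y', C', hC', hY'⟩
      · rcases ih V2 C (by omega) (fun x hx => (mem_filter.1 hx).2) with
          ⟨B2, hB2⟩ | h | ⟨Y', C', hC', hY'⟩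
        · refine hP ⟨fun j => B1 j ∪ B2 j, fun j => ?_, fun x => ⟨fun hx => ?_, ?_⟩,
            fun x i j hi hj => ?_⟩
          · refine (hB1.ci j).union (hB2.ci j) (le_sup_left.trans hH'C) ?_
            exact Finset.sup_le fun x hx => (mem_filter.1 (hB1.sub j hx)).2
          · by_cases hxC : e x ≤ C
            · obtain ⟨j, hj⟩ := (hB1.mem x).1 (mem_filter.2 ⟨hx, hxC⟩)
              exact ⟨j, mem_union_left _ hj⟩
            · obtain ⟨j, hj⟩ := (hB2.mem x).1 (mem_filter.2 ⟨hx, hxC⟩)
              exact ⟨j, mem_union_right _ hj⟩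
          · rintro ⟨j, hj⟩
            rcases mem_union.1 hj with h | h
            · exact (mem_filter.1 (hB1.sub j h)).1
            · exact (mem_filter.1 (hB2.sub j h)).1
          · rcases mem_union.1 hi with hi | hi <;> rcases mem_union.1 hj with hj | hj
            · exact hB1.disj x i j hi hj
            · exact absurd (mem_filter.1 (hB1.sub _ hi)).2 (mem_filter.1 (hB2.sub _ hj)).2
            · exact absurd (mem_filter.1 (hB1.sub _ hj)).2 (mem_filter.1 (hB2.sub _ hi)).2
            · exact hB2.disj x i j hi hj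
        · omega
        · have hCC' : C ≤ C' := (hY'.span ⟨0, hk⟩) ▸ le_sup_left
          have hYC : ∀ j, ∀ x ∈ Y j, e x ≤ C := fun j x hx =>
            (le_sup (f := e) hx).trans ((hY.span j) ▸ le_sup_right)
          have hnew : Span e H' k V C' (fun j => Y j ∪ Y' j) := by
            refine ⟨fun j => ?_, fun j x hx => ?_, fun x i j hi hj => ?_⟩
            · rw [sup_union, ← sup_assoc, hY.span j, hY'.span j]
            · rcases mem_union.1 hx with hx | hx
              · exact hY.sub j hx
              · exact (mem_filter.1 (hY'.sub j hx)).1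
            · rcases mem_union.1 hi with hi | hi <;> rcases mem_union.1 hj with hj | hj
              · exact hY.disj x i j hi hj
              · exact absurd (hYC _ _ hi) (mem_filter.1 (hY'.sub _ hj)).2
              · exact absurd (hYC _ _ hj) (mem_filter.1 (hY'.sub _ hi)).2
              · exact hY'.disj x i j hi hj
          have hlt : (V.filter (fun x => e x ≤ C)).card < (V.filter (fun x => e x ≤ C')).card := by
            apply card_lt_card
            refine ⟨fun x hx => mem_filter.2 ⟨(mem_filter.1 hx).1, (mem_filter.1 hx).2.trans hCC'⟩,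
              fun hsub => ?_⟩
            have hemp : Y' ⟨0, hk⟩ = ∅ := by
              refine eq_empty_of_forall_notMem fun x hx => ?_
              have hx2 := mem_filter.1 (hY'.sub _ hx)
              have hxC' : e x ≤ C' := (le_sup (f := e) hx).trans ((hY'.span ⟨0, hk⟩) ▸ le_sup_right)
              exact hx2.2 (mem_filter.1 (hsub (mem_filter.2 ⟨hx2.1, hxC'⟩))).2
            have := hY'.span ⟨0, hk⟩
            rw [hemp] at this
            exact hC' (by simpa using this.symm)
          refine absurd (hmax _ _ hnew fun j x hx => ?_) (not_le.2 hlt)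
          rcases mem_union.1 hx with hx | hx
          · exact hYH j x hx
          · exact fun h => (mem_filter.1 (hY'.sub _ hx)).2 (h.trans hH'C)
      · omega
      · exact hQ ⟨Y', C', hC', hY'.span, fun j x hx => (mem_filter.1 (hY'.sub j hx)).1, hY'.disj⟩
    obtain ⟨Y, C, hY, hYH, hVC⟩ := ha
    -- (b) `V - w` is coverable
    have hcard : (V.erase w).card ≤ n := by rw [card_erase_of_mem hw]; omega
    rcases ih (V.erase w) H hcard (fun x hx => hVH x (mem_of_mem_erase hx)) with
      ⟨B0, hB0⟩ | h | ⟨Y', C', hC', hY'⟩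
    swap; · omega
    swap
    · exact hQ ⟨Y', C', hC', hY'.span, fun j x hx => mem_of_mem_erase (hY'.sub j hx), hY'.disj⟩
    -- (c) exchange
    have hex : ∃ m : ℕ, ∃ B, Cover e H k (V.erase w) B ∧ ∑ j, (B j ∩ Y j).card = m :=
      ⟨_, B0, hB0, rfl⟩
    have hbd : ∀ B : Fin k → Finset α, ∑ j, (B j ∩ Y j).card ≤ ∑ j, (Y j).card := fun B =>
      sum_le_sum fun j _ => card_le_card inter_subset_right
    obtain ⟨B, hB, hm⟩ := Nat.findGreatest_spec (P := fun m => ∃ B, Cover e H k (V.erase w) B ∧
      ∑ j, (B j ∩ Y j).card = m) (n := ∑ j, (Y j).card) (m := ∑ j, (B0 j ∩ Y j).card)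
      (hbd B0) ⟨B0, hB0, rfl⟩
    have hmax : ∀ B', Cover e H k (V.erase w) B' →
        ∑ j, (B' j ∩ Y j).card ≤ ∑ j, (B j ∩ Y j).card := by
      intro B' h
      rw [hm]
      exact Nat.le_findGreatest (hbd B') ⟨B', h, rfl⟩
    have hsp : ∀ j, ∀ x ∈ V, e x ≤ H' ⊔ (B j).sup e := by
      intro j
      by_contra hne
      push Not at hne
      obtain ⟨v, hv, hvB⟩ := hne
      have hY1 : ∃ x ∈ Y j, ¬ e x ≤ H' ⊔ (B j).sup e := by
        by_contra hall
        push Not at hall
        refine hvB ((hVC v hv).trans ?_)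
        rw [← hY.span j]
        exact sup_le le_sup_left (Finset.sup_le hall)
      obtain ⟨x, hxY, hxB⟩ := hY1
      have hxw : x ≠ w := by
        rintro rfl
        exact hxB (le_sup_right.trans le_sup_left)
      have hxV : x ∈ V.erase w := mem_erase.2 ⟨hxw, hY.sub j hxY⟩
      have hxB' : ¬ e x ≤ H ⊔ (B j).sup e := fun h => hxB (h.trans (sup_le_sup_right le_sup_left _))
      have hnew := hB.move j hxV hxB'
      have hxBj : x ∉ B j := fun h => hxB' ((le_sup (f := e) h).trans le_sup_right)
      refine absurd (hmax _ hnew) (not_le.2 (sum_lt_sum (fun i _ => ?_) ⟨j, mem_univ j, ?_⟩))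
      · refine card_le_card fun y hy => ?_
        rw [mem_inter] at hy ⊢
        refine ⟨?_, hy.2⟩
        split_ifs with hij
        · subst hij; exact mem_insert_of_mem hy.1
        · refine mem_erase.2 ⟨?_, hy.1⟩
          rintro rfl
          exact hij (hY.disj y i j hy.2 hxY)
      · simp only [if_true]
        refine card_lt_card ⟨inter_subset_inter_right (subset_insert _ _), fun h => hxBj ?_⟩
        exact (mem_inter.1 (h (mem_inter.2 ⟨mem_insert_self _ _, hxY⟩))).1
    -- (d)
    by_cases hd : ∃ j, ¬ e w ≤ H ⊔ (B j).sup e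
    · obtain ⟨j, hj⟩ := hd
      refine hP ⟨fun i => if i = j then insert w (B j) else B i, fun i => ?_,
        fun x => ⟨fun hx => ?_, ?_⟩, fun x i i' hi hi' => ?_⟩
      · split_ifs
        · exact CI.insert (hB.ci j) hj
        · exact hB.ci i
      · by_cases hxw : x = w
        · exact ⟨j, by simp [hxw]⟩
        · obtain ⟨i, hi⟩ := (hB.mem x).1 (mem_erase.2 ⟨hxw, hx⟩)
          refine ⟨i, ?_⟩
          by_cases hij : i = j
          · subst hij; simp [hi]
          · simp [hij, hi]
      · rintro ⟨i, hi⟩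
        split_ifs at hi
        · rcases mem_insert.1 hi with rfl | hi
          · exact hw
          · exact mem_of_mem_erase (hB.sub j hi)
        · exact mem_of_mem_erase (hB.sub i hi)
      · have hnw : ∀ i, w ∉ B i := fun i h => absurd rfl (ne_of_mem_erase (hB.sub i h))
        split_ifs at hi hi' with h1 h2 h2
        · rw [h1, h2]
        · rcases mem_insert.1 hi with rfl | hi
          · exact absurd hi' (hnw _)
          · exact h1.trans (hB.disj x j i' hi hi')
        · rcases mem_insert.1 hi' with rfl | hi'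
          · exact absurd hi (hnw _)
          · exact (hB.disj x i j hi hi').trans h2.symm
        · exact hB.disj x i i' hi hi'
    · push Not at hd
      have h1 : ∀ j, H ⊔ (B j).sup e = H ⊔ V.sup e := by
        intro j
        apply le_antisymm
        · exact sup_le_sup_left (sup_mono fun x hx => mem_of_mem_erase (hB.sub j hx)) _
        · refine sup_le le_sup_left (Finset.sup_le fun x hx => (hsp j x hx).trans ?_)
          exact sup_le (sup_le le_sup_left (hd j)) le_sup_right
      refine hQ ⟨B, H ⊔ V.sup e, fun h => ?_, h1, fun j x hx => mem_of_mem_erase (hB.sub j hx),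
        hB.disj⟩
      exact hVH w hw ((le_sup (f := e) hw).trans (h ▸ le_sup_right))

end Pool.Agent.Helper82.Part
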