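import Pool.Agent.Helper82.CI.Main

/-!
# The partition theorem for finite abelian groups
-/

namespace Pool.Agent.Helper82.Part

open Finset

variable {T : Type*} [AddCommGroup T]

theorem sup_zmultiples (B : Finset T) :
    B.sup (fun x : T => AddSubgroup.zmultiples x) = AddSubgroup.closure (B : Set T) := by
  apply le_antisymm
  · refine Finset.sup_le fun x hx => ?_
    rw [AddSubgroup.zmultiples_le]
    exact AddSubgroup.subset_closure hx
  · rw [AddSubgroup.closure_le]
    intro x hx
    exact (le_sup (f := fun x : T => AddSubgroup.zmultiples x) hx : _)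
      (AddSubgroup.mem_zmultiples x)

variable [Finite T]

theorem card_strictMono : StrictMono (fun H : AddSubgroup T => Nat.card H) := by
  intro H H' h
  have h1 : (H : Set T) ⊂ H' := h
  exact Set.ncard_lt_ncard h1 (Set.toFinite _)

theorem two_mul_card_le {H H' : AddSubgroup T} (h : H < H') : 2 * Nat.card H ≤ Nat.card H' := by
  have h1 : Nat.card H ∣ Nat.card H' := AddSubgroup.card_dvd_of_le h.le
  obtain ⟨c, hc⟩ := h1
  have h2 := card_strictMono h
  simp only at h2
  rcases c with _ | _ | c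
  · omega
  · omega
  · rw [hc]
    nlinarith [Nat.zero_le (Nat.card H * c)]

/-- a chain independent set over `H` with `n` elements multiplies the order by at least `2 ^ n` -/
theorem CI.card_le [DecidableEq T] {H : AddSubgroup T} {B : Finset T}
    (h : CI (fun x : T => AddSubgroup.zmultiples x) H B) :
    Nat.card H * 2 ^ B.card ≤
      Nat.card (H ⊔ B.sup (fun x : T => AddSubgroup.zmultiples x) : AddSubgroup T) := by
  induction h with
  | empty => simp
  | @insert x B hB hx ih =>
    have hxB : x ∉ B := fun h => hx ((le_sup (f := fun x : T => AddSubgroup.zmultiples x) h).trans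
      le_sup_right)
    rw [card_insert_of_notMem hxB, sup_insert, pow_succ]
    have hlt : H ⊔ B.sup (fun x : T => AddSubgroup.zmultiples x) <
        H ⊔ (AddSubgroup.zmultiples x ⊔ B.sup (fun x : T => AddSubgroup.zmultiples x)) := by
      refine lt_of_le_of_ne (sup_le_sup_left le_sup_right _) fun h => hx ?_
      rw [h]
      exact le_sup_left.trans le_sup_right
    have := two_mul_card_le hlt
    nlinarith

theorem two_mul_card_add_card {V : Finset T} (hV : ∀ s ∈ V, -s ∉ V) {K : AddSubgroup T}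
    (hK : ∀ s ∈ V, s ∈ K) :
    2 * V.card + {x : T | x ∈ K ∧ x + x = 0}.ncard ≤ Nat.card K := by
  classical
  set A : Set T := (V : Set T)
  set A' : Set T := {x | -x ∈ V}
  set J : Set T := {x | x ∈ K ∧ x + x = 0}
  have hA : A.ncard = V.card := by
    rw [← Set.ncard_coe_finset]
  have hA' : A'.ncard = A.ncard := by
    have : A' = (fun x => -x) '' A := by
      ext x
      simp only [Set.mem_image, Set.mem_ofPred_eq, A, A', mem_coe]
      constructor
      · intro h1
        exact ⟨-x, h1, neg_neg x⟩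
      · rintro ⟨y, h1, rfl⟩
        simpa using h1
    rw [this]
    exact Set.ncard_image_of_injective _ neg_injective
  have hd1 : Disjoint A A' := by
    rw [Set.disjoint_left]
    rintro x h1 h2
    exact hV x h1 h2
  have hd2 : Disjoint (A ∪ A') J := by
    rw [Set.disjoint_left]
    rintro x (h1 | h1) ⟨_, h3⟩
    · exact hV x h1 (by rwa [neg_eq_of_add_eq_zero_left h3])
    · exact hV (-x) h1 (by rw [neg_neg]; rwa [← neg_eq_of_add_eq_zero_left h3])
  have hsub : A ∪ A' ∪ J ⊆ (K : Set T) := by
    rintro x ((h | h) | ⟨h, _⟩)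
    · exact hK x h
    · have := K.neg_mem (hK _ h)
      rwa [neg_neg] at this
    · exact h
  have h1 := Set.ncard_le_ncard hsub (Set.toFinite _)
  rw [Set.ncard_union_eq hd2 (Set.toFinite _) (Set.toFinite _),
    Set.ncard_union_eq hd1 (Set.toFinite _) (Set.toFinite _), hA', hA] at h1
  have h2 : (K : Set T).ncard = Nat.card K := rfl
  omega

/-- **Theorem A**: every finite set `S` without involutions and inverses in a finite abelian group
is the disjoint union of a chain independent set `L` and of chain independent blocks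
`C 0 ∪ O 0, ..., C (m - 1) ∪ O (m - 1)` with increasing spans, such that for a certain subgroup `K`
the sets `L` and `C j` lie in `K`, every `C j` generates `K`, `O j` is disjoint from `K` and chain
independent modulo `K` and `|B j| / |⟨B j⟩| ≤ |C j| / |K|` for `B j = C j ∪ O j`. -/
theorem exists_blocks [DecidableEq T] (S : Finset T) (hS : ∀ s ∈ S, -s ∉ S) :
    ∃ (m : ℕ) (K : AddSubgroup T) (C O : Fin m → Finset T) (L : Finset T),
      (∀ x, x ∈ S ↔ x ∈ L ∨ ∃ j, x ∈ C j ∪ O j) ∧ (∀ x ∈ L, ∀ j, x ∉ C j ∪ O j) ∧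
      (∀ x i j, x ∈ C i ∪ O i → x ∈ C j ∪ O j → i = j) ∧
      (∀ x ∈ L, x ∈ K) ∧ (∀ j, ∀ x ∈ C j, x ∈ K) ∧ (∀ j, ∀ x ∈ O j, x ∉ K) ∧
      CI (fun x : T => AddSubgroup.zmultiples x) ⊥ L ∧
      (∀ j, CI (fun x : T => AddSubgroup.zmultiples x) ⊥ (C j)) ∧
      (∀ j, CI (fun x : T => AddSubgroup.zmultiples x) K (O j)) ∧
      (∀ j, CI (fun x : T => AddSubgroup.zmultiples x) ⊥ (C j ∪ O j)) ∧
      (∀ j, AddSubgroup.closure (C j : Set T) = K) ∧
      (∀ i j, i ≤ j → AddSubgroup.closure ((C i ∪ O i : Finset T) : Set T) ≤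
        AddSubgroup.closure ((C j ∪ O j : Finset T) : Set T)) ∧
      (∀ j, (C j ∪ O j).card * Nat.card K ≤
        (C j).card * Nat.card (AddSubgroup.closure ((C j ∪ O j : Finset T) : Set T))) ∧
      2 * (L.card + ∑ j, (C j).card) + {x : T | x ∈ K ∧ x + x = 0}.ncard ≤ Nat.card K ∧
      (S.Nonempty → 0 < m) ∧ (0 < m → K ≠ ⊥) := by
  classical
  have hS0 : ∀ x ∈ S, ¬ AddSubgroup.zmultiples x ≤ (⊥ : AddSubgroup T) := by
    intro x hx h
    rw [le_bot_iff, AddSubgroup.zmultiples_eq_bot] at h
    subst h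
    exact hS 0 hx (by simpa using hx)
  obtain ⟨m, K, B, O, V1, V2, hV1, hV2, hB, hBK, hO, hOn, hm, hK⟩ :=
    main_partition (e := fun x : T => AddSubgroup.zmultiples x) card_strictMono S hS0
  have hmem : ∀ x : T, AddSubgroup.zmultiples x ≤ K ↔ x ∈ K := fun x => AddSubgroup.zmultiples_le
  -- sort
  set f : Fin m → ℕ := fun j => Nat.card (K ⊔ (O j).sup (fun x : T => AddSubgroup.zmultiples x) :
    AddSubgroup T) with hf
  set σ := Tuple.sort f
  have hσ : Monotone (f ∘ σ) := Tuple.monotone_sort f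
  have hBmem : ∀ j, ∀ x ∈ B j, x ∈ K := fun j x hx => (hmem x).1 ((hV1 x).1 ((hB.mem x).2 ⟨j, hx⟩)).2
  have hOmem : ∀ j, ∀ x ∈ O j, x ∉ K := fun j x hx h =>
    ((hV2 x).1 ((hO.mem x).2 ⟨j, hx⟩)).2 ((hmem x).2 h)
  have hcl : ∀ j : Fin m, AddSubgroup.closure ((B j.castSucc ∪ O j : Finset T) : Set T) =
      K ⊔ (O j).sup (fun x : T => AddSubgroup.zmultiples x) := by
    intro j
    rw [← sup_zmultiples, sup_union, hBK]
  refine ⟨m, K, fun j => B (σ j).castSucc, fun j => O (σ j), B (Fin.last m), ?_, ?_, ?_,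
    hBmem _, fun j => hBmem _, fun j => hOmem _, hB.ci _, fun j => hB.ci _, fun j => hO.ci _, ?_,
    ?_, ?_, ?_, ?_, hm, hK⟩
  · intro x
    constructor
    · intro hx
      by_cases hxK : x ∈ K
      · obtain ⟨j, hj⟩ := (hB.mem x).1 ((hV1 x).2 ⟨hx, (hmem x).2 hxK⟩)
        rcases Fin.eq_castSucc_or_eq_last j with ⟨i, rfl⟩ | rfl
        · exact Or.inr ⟨σ.symm i, mem_union_left _ (by simpa using hj)⟩
        · exact Or.inl hj
      · obtain ⟨j, hj⟩ := (hO.mem x).1 ((hV2 x).2 ⟨hx, fun h => hxK ((hmem x).1 h)⟩)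
        exact Or.inr ⟨σ.symm j, mem_union_right _ (by simpa using hj)⟩
    · rintro (h | ⟨j, h⟩)
      · exact ((hV1 x).1 ((hB.mem x).2 ⟨_, h⟩)).1
      · rcases mem_union.1 h with h | h
        · exact ((hV1 x).1 ((hB.mem x).2 ⟨_, h⟩)).1
        · exact ((hV2 x).1 ((hO.mem x).2 ⟨_, h⟩)).1
  · intro x hx j hx'
    rcases mem_union.1 hx' with h | h
    · have := hB.disj x _ _ hx h
      exact (Fin.castSucc_lt_last (σ j)).ne this.symm
    · exact hOmem _ x h (hBmem _ x hx)
  · intro x i j hi hj
    rcases mem_union.1 hi with hi | hi <;> rcases mem_union.1 hj with hj | hj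
    · exact σ.injective (Fin.castSucc_injective m (hB.disj x _ _ hi hj))
    · exact absurd (hBmem _ x hi) (hOmem _ x hj)
    · exact absurd (hBmem _ x hj) (hOmem _ x hi)
    · exact σ.injective (hO.disj x _ _ hi hj)
  · intro j
    refine (hB.ci _).union (hO.ci _) bot_le ?_
    rw [hBK]
  · intro j
    rw [← sup_zmultiples, hBK]
  · intro i j hij
    simp only [hcl]
    exact hOn _ _ (hσ hij)
  · intro j
    simp only [hcl]
    have h1 := (hO.ci (σ j)).card_le
    have hdis : Disjoint (B (σ j).castSucc) (O (σ j)) := by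
      rw [disjoint_left]
      exact fun x hx hx' => hOmem _ x hx' (hBmem _ x hx)
    rw [card_union_of_disjoint hdis]
    have h2 : 0 < (B (σ j).castSucc).card := by
      rw [card_pos, nonempty_iff_ne_empty]
      intro h
      have h3 := hBK (σ j)
      rw [h] at h3
      exact hK (j.pos) (by simpa using h3.symm)
    have h4 : (O (σ j)).card + 1 ≤ 2 ^ (O (σ j)).card := Nat.lt_two_pow_self
    calc ((B (σ j).castSucc).card + (O (σ j)).card) * Nat.card K
        ≤ (B (σ j).castSucc).card * ((O (σ j)).card + 1) * Nat.card K := by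
          apply Nat.mul_le_mul_right
          nlinarith
      _ ≤ (B (σ j).castSucc).card * 2 ^ (O (σ j)).card * Nat.card K := by gcongr
      _ = (B (σ j).castSucc).card * (Nat.card K * 2 ^ (O (σ j)).card) := by ring
      _ ≤ _ := Nat.mul_le_mul_left _ h1
  · have hcard : (B (Fin.last m)).card + ∑ j, (B (σ j).castSucc).card = V1.card := by
      have h1 : ∑ j, (B (σ j).castSucc).card = ∑ j : Fin m, (B j.castSucc).card :=
        Equiv.sum_comp σ (fun j : Fin m => (B j.castSucc).card)
      have h2 : V1 = (univ : Finset (Fin (m + 1))).biUnion B := by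
        ext x
        rw [hB.mem x]
        simp
      rw [h1, h2, card_biUnion, Fin.sum_univ_castSucc, add_comm]
      intro i _ j _ hij
      rw [Function.onFun, disjoint_left]
      exact fun x hx hx' => hij (hB.disj x _ _ hx hx')
    rw [hcard]
    refine two_mul_card_add_card (fun s hs hs' => hS s ((hV1 s).1 hs).1 ((hV1 _).1 hs').1)
      (fun s hs => (hmem s).1 ((hV1 s).1 hs).2)

end Pool.Agent.Helper82.Part
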