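import Mathlib
import Pool.Agent.Helper39.HD.Forest

/-!
# The greedy step

`R` is a linear forest, `Z` a graph with all degrees at most two (a cycle), edge-disjoint from `R`.
If the sum of the `R`-degrees over the vertices of `Z` is smaller than the number of edges of `Z`,
some edge of `Z` can be added to `R`.
-/

namespace Pool.Agent.Helper82.Part

open Finset Pool.Agent.Helper39.HD

variable {V : Type*}

theorem end_unique_aux {R : SimpleGraph V} (hdeg : ∀ v, (R.neighborSet v).encard ≤ 2) :
    ∀ {u v : V} (p : R.Walk u v) {w z : V} (q : R.Walk u w), p.IsPath → q.IsPath → R.Adj z u →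
      z ∉ p.support → z ∉ q.support → (R.neighborSet v).encard ≤ 1 →
      (R.neighborSet w).encard ≤ 1 → v = w := by
  intro u v p
  induction p with
  | nil =>
    rename_i u
    intro w z q _ hq hz _ hzq hv _
    cases q with
    | nil => rfl
    | cons h q' =>
      rename_i b
      exfalso
      have hbz : b ≠ z := by
        rintro rfl
        exact hzq (by simp)
      have : ({z, b} : Set V).encard ≤ (R.neighborSet u).encard := by
        apply Set.encard_le_encard
        rintro y (rfl | rfl)
        · exact hz.symm
        · exact h
      rw [Set.encard_pair hbz.symm] at this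
      have := this.trans hv
      norm_num at this
  | cons h p' ih =>
    rename_i u a v
    intro w z q hp hq hz hzp hzq hv hw
    have haz : a ≠ z := by
      rintro rfl
      exact hzp (by simp)
    cases q with
    | nil =>
      exfalso
      have : ({z, a} : Set V).encard ≤ (R.neighborSet u).encard := by
        apply Set.encard_le_encard
        rintro y (rfl | rfl)
        · exact hz.symm
        · exact h
      rw [Set.encard_pair haz.symm] at this
      have := this.trans hw
      norm_num at this
    | cons h' q' =>
      rename_i b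
      have hbz : b ≠ z := by
        rintro rfl
        exact hzq (by simp)
      have hab : a = b := by
        by_contra hab
        have : ({z, a, b} : Set V).encard ≤ (R.neighborSet u).encard := by
          apply Set.encard_le_encard
          rintro y (rfl | rfl | rfl)
          · exact hz.symm
          · exact h
          · exact h'
        rw [Set.encard_insert_of_notMem (by simp [haz.symm, hbz.symm]),
          Set.encard_pair hab] at this
        have := this.trans (hdeg u)
        norm_num at this
      subst hab
      rw [SimpleGraph.Walk.cons_isPath_iff] at hp hq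
      exact ih q' hp.1 hq.1 h hp.2 hq.2 hv hw

/-- a path in a graph with degrees at most two has only two ends -/
theorem end_unique {R : SimpleGraph V} (hdeg : ∀ v, (R.neighborSet v).encard ≤ 2) {x y y' : V}
    (hx : (R.neighborSet x).encard ≤ 1) (hy : (R.neighborSet y).encard ≤ 1)
    (hy' : (R.neighborSet y').encard ≤ 1) (hxy : x ≠ y) (hxy' : x ≠ y')
    (h : R.Reachable x y) (h' : R.Reachable x y') : y = y' := by
  classical
  obtain ⟨p, hp⟩ := h.exists_isPath
  obtain ⟨q, hq⟩ := h'.exists_isPath
  cases p with
  | nil => exact absurd rfl hxy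
  | cons h1 p' =>
    rename_i a
    cases q with
    | nil => exact absurd rfl hxy'
    | cons h2 q' =>
      rename_i b
      have hab : a = b := by
        rw [Set.encard_le_one_iff] at hx
        exact hx a b h1 h2
      subst hab
      rw [SimpleGraph.Walk.cons_isPath_iff] at hp hq
      exact end_unique_aux hdeg p' q' hp.1 hq.1 h1 hp.2 hq.2 hy hy'

/-- adding an edge to a linear forest -/
theorem IsLinearForest.add {R : SimpleGraph V} (hR : IsLinearForest R) {x y : V}
    (hx : (R.neighborSet x).encard ≤ 1) (hy : (R.neighborSet y).encard ≤ 1)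
    (h : ¬ R.Reachable x y) : IsLinearForest (R ⊔ SimpleGraph.edge x y) := by
  classical
  refine ⟨hR.1.sup_edge_of_not_reachable h, fun v => ?_⟩
  have hxy : x ≠ y := by
    rintro rfl
    exact h (SimpleGraph.Reachable.refl _)
  by_cases hvx : v = x
  · subst hvx
    have : (R ⊔ SimpleGraph.edge v y).neighborSet v ⊆ insert y (R.neighborSet v) := by
      intro z hz
      rcases hz with hz | hz
      · exact Or.inr hz
      · rw [SimpleGraph.edge_adj] at hz
        rcases hz.1 with ⟨_, rfl⟩ | ⟨h1, _⟩
        · exact Or.inl rfl
        · exact absurd h1 hxy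
    refine (Set.encard_le_encard this).trans ((Set.encard_insert_le _ _).trans ?_)
    calc _ ≤ (1 : ℕ∞) + 1 := by gcongr
      _ = 2 := by norm_num
  by_cases hvy : v = y
  · subst hvy
    have : (R ⊔ SimpleGraph.edge x v).neighborSet v ⊆ insert x (R.neighborSet v) := by
      intro z hz
      rcases hz with hz | hz
      · exact Or.inr hz
      · rw [SimpleGraph.edge_adj] at hz
        rcases hz.1 with ⟨h1, _⟩ | ⟨_, rfl⟩
        · exact absurd h1.symm hxy
        · exact Or.inl rfl
    refine (Set.encard_le_encard this).trans ((Set.encard_insert_le _ _).trans ?_)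
    calc _ ≤ (1 : ℕ∞) + 1 := by gcongr
      _ = 2 := by norm_num
  · have : (R ⊔ SimpleGraph.edge x y).neighborSet v ⊆ R.neighborSet v := by
      intro z hz
      rcases hz with hz | hz
      · exact hz
      · rw [SimpleGraph.edge_adj] at hz
        rcases hz.1 with ⟨h1, _⟩ | ⟨h1, _⟩
        · exact absurd h1 hvx
        · exact absurd h1 hvy
    exact (Set.encard_le_encard this).trans (hR.2 v)

open Classical in
/-- **greedy step** -/
theorem exists_good_edge [Fintype V] {R Z : SimpleGraph V} (hR : IsLinearForest R)
    (hZ : ∀ v, (Z.neighborSet v).encard ≤ 2)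
    (hcard : ∑ v ∈ univ.filter (fun v => ∃ w, Z.Adj v w), R.degree v < Z.edgeFinset.card) :
    ∃ x y, Z.Adj x y ∧ (R.neighborSet x).encard ≤ 1 ∧ (R.neighborSet y).encard ≤ 1 ∧
      ¬ R.Reachable x y := by
  by_contra hcon
  push Not at hcon
  have henc : ∀ (G : SimpleGraph V) v, (G.neighborSet v).encard = (G.degree v : ℕ∞) := by
    intro G v
    rw [← SimpleGraph.card_neighborSet_eq_degree, Set.encard_eq_coe_toFinset_card,
      Set.toFinset_card]
  let B : V → Finset V := fun x => univ.filter (fun y => Z.Adj x y ∧
    (2 ≤ R.degree x ∨ (R.degree x = 1 ∧ R.degree y ≤ 1 ∧ R.Reachable x y)))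
  have hsub : Z.edgeFinset ⊆ ((univ.filter (fun v => ∃ w, Z.Adj v w)).sigma B).image
      (fun p => s(p.1, p.2)) := by
    intro e he
    induction e with
    | h x y =>
      have hxy : Z.Adj x y := by simpa using he
      rw [mem_image]
      by_cases h1 : 2 ≤ R.degree x
      · refine ⟨⟨x, y⟩, ?_, rfl⟩
        simp only [mem_sigma, mem_filter, mem_univ, true_and, B]
        exact ⟨⟨y, hxy⟩, hxy, Or.inl h1⟩
      by_cases h2 : 2 ≤ R.degree y
      · refine ⟨⟨y, x⟩, ?_, Sym2.eq_swap⟩
        simp only [mem_sigma, mem_filter, mem_univ, true_and, B]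
        exact ⟨⟨x, hxy.symm⟩, hxy.symm, Or.inl h2⟩
      have h3 := hcon x y hxy (by rw [henc]; exact_mod_cast (by omega))
        (by rw [henc]; exact_mod_cast (by omega))
      have h4 : R.degree x = 1 := by
        have : R.degree x ≠ 0 := by
          intro h0
          obtain ⟨p⟩ := h3
          cases p with
          | nil => exact Z.loopless.irrefl _ hxy
          | cons h _ =>
            have := (SimpleGraph.degree_pos_iff_exists_adj (G := R) x).2 ⟨_, h⟩
            omega
        omega
      refine ⟨⟨x, y⟩, ?_, rfl⟩
      simp only [mem_sigma, mem_filter, mem_univ, true_and, B]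
      exact ⟨⟨y, hxy⟩, hxy, Or.inr ⟨h4, by omega, h3⟩⟩
  have hB : ∀ x, (B x).card ≤ R.degree x := by
    intro x
    rcases Nat.lt_or_ge (R.degree x) 2 with h | h
    · rcases Nat.eq_zero_or_pos (R.degree x) with h0 | h0
      · have : B x = ∅ := by
          refine eq_empty_of_forall_notMem fun y hy => ?_
          simp only [mem_filter, mem_univ, true_and, B] at hy
          rcases hy.2 with h1 | h1 <;> omega
        rw [this, card_empty]
        omega
      · have h1 : R.degree x = 1 := by omega
        rw [h1, card_le_one]
        intro y hy y' hy'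
        simp only [mem_filter, mem_univ, true_and, B] at hy hy'
        have hy2 := hy.2.resolve_left (by omega)
        have hy2' := hy'.2.resolve_left (by omega)
        refine end_unique hR.2 (x := x) ?_ ?_ ?_ hy.1.ne hy'.1.ne hy2.2.2 hy2'.2.2
        · rw [henc, h1]; norm_num
        · rw [henc]; exact_mod_cast hy2.2.1
        · rw [henc]; exact_mod_cast hy2'.2.1
    · have h1 : (B x).card ≤ Z.degree x := by
        rw [← SimpleGraph.card_neighborFinset_eq_degree]
        refine card_le_card fun y hy => ?_
        simp only [mem_filter, mem_univ, true_and, B] at hy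
        simpa using hy.1
      have h2 : Z.degree x ≤ 2 := by
        have := hZ x
        rw [henc] at this
        exact_mod_cast this
      omega
  have := calc Z.edgeFinset.card
      ≤ (((univ.filter (fun v => ∃ w, Z.Adj v w)).sigma B).image (fun p => s(p.1, p.2))).card :=
        card_le_card hsub
    _ ≤ ((univ.filter (fun v => ∃ w, Z.Adj v w)).sigma B).card := card_image_le
    _ = ∑ v ∈ univ.filter (fun v => ∃ w, Z.Adj v w), (B v).card := card_sigma _ _
    _ ≤ ∑ v ∈ univ.filter (fun v => ∃ w, Z.Adj v w), R.degree v := sum_le_sum fun x _ => hB x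
  omega

/-- in a graph with degrees at most two, a subgraph which misses an edge of every component is
a linear forest -/
theorem isLinearForest_of_missing {Z F : SimpleGraph V} (hZ : ∀ v, (Z.neighborSet v).encard ≤ 2)
    (hF : F ≤ Z) (h : ∀ v, ∃ x y, Z.Reachable v x ∧ Z.Adj x y ∧ ¬ F.Adj x y) :
    IsLinearForest F := by
  classical
  refine ⟨fun v w hw => ?_, fun v => (Set.encard_le_encard fun y hy => hF hy).trans (hZ v)⟩
  -- all neighbours in `Z` of a vertex of the cycle are neighbours on the cycle
  have key : ∀ x ∈ w.support, ∀ y, Z.Adj x y → F.Adj x y ∧ y ∈ w.support := by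
    intro x hx y hxy
    have h1 := hw.ncard_neighborSet_toSubgraph_eq_two hx
    have h2 : w.toSubgraph.neighborSet x ⊆ Z.neighborSet x := fun z hz =>
      hF (w.toSubgraph.adj_sub hz)
    have hfin : (Z.neighborSet x).Finite := by
      refine Set.finite_of_encard_le_coe (k := 2) ?_
      exact_mod_cast hZ x
    have h3 : w.toSubgraph.neighborSet x = Z.neighborSet x := by
      refine Set.eq_of_subset_of_ncard_le h2 ?_ hfin
      rw [h1]
      have := hZ x
      rw [← hfin.cast_ncard_eq] at this
      exact_mod_cast this
    have h4 : y ∈ w.toSubgraph.neighborSet x := by rw [h3]; exact hxy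
    refine ⟨w.toSubgraph.adj_sub h4, ?_⟩
    rw [← SimpleGraph.Walk.mem_verts_toSubgraph]
    exact w.toSubgraph.edge_vert h4.symm
  have hcl : ∀ x, Z.Reachable v x → x ∈ w.support := by
    intro x hx
    obtain ⟨p⟩ := hx
    have : ∀ {a b : V} (p : Z.Walk a b), a ∈ w.support → b ∈ w.support := by
      intro a b p
      induction p with
      | nil => exact id
      | cons h _ ih => exact fun ha => ih (key _ ha _ h).2
    exact this p w.start_mem_support
  obtain ⟨x, y, hvx, hxy, hn⟩ := h v
  exact hn (key x (hcl x hvx) y hxy).1

end Pool.Agent.Helper82.Part
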