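import Pool.Agent.Helper82.CI.Basic

/-!
# Partition into chain independent blocks
-/

namespace Pool.Agent.Helper82.Part

open Finset

variable {α L : Type*} [DecidableEq α] [SemilatticeSup L] [OrderBot L]
variable {e : α → L} {H K : L}

/-- **Lemma Y**: if `V` has `k` disjoint spanning sets, the first `k` blocks of a partition into
`t ≥ k` chain independent sets can be made spanning. -/
theorem Cover.spanning {t k : ℕ} (hkt : k ≤ t) {V : Finset α} {B0 : Fin t → Finset α}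
    (h0 : Cover e H t V B0) {C : L} {Y : Fin k → Finset α} (hY : Span e H k V C Y)
    (hVC : ∀ x ∈ V, e x ≤ C) :
    ∃ B, Cover e H t V B ∧ ∀ j : Fin k, H ⊔ (B (Fin.castLE hkt j)).sup e = C := by
  classical
  have hbd : ∀ B : Fin t → Finset α, ∑ j : Fin k, (B (Fin.castLE hkt j) ∩ Y j).card ≤
      ∑ j, (Y j).card := fun B => sum_le_sum fun j _ => card_le_card inter_subset_right
  obtain ⟨B, hB, hm⟩ := Nat.findGreatest_spec (P := fun m => ∃ B, Cover e H t V B ∧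
    ∑ j : Fin k, (B (Fin.castLE hkt j) ∩ Y j).card = m) (n := ∑ j, (Y j).card)
    (m := ∑ j : Fin k, (B0 (Fin.castLE hkt j) ∩ Y j).card) (hbd B0) ⟨B0, h0, rfl⟩
  have hmax : ∀ B', Cover e H t V B' → ∑ j : Fin k, (B' (Fin.castLE hkt j) ∩ Y j).card ≤
      ∑ j : Fin k, (B (Fin.castLE hkt j) ∩ Y j).card := by
    intro B' h
    rw [hm]
    exact Nat.le_findGreatest (hbd B') ⟨B', h, rfl⟩
  refine ⟨B, hB, fun j => ?_⟩
  have hHC : H ≤ C := (hY.span j) ▸ le_sup_left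
  apply le_antisymm (sup_le hHC (Finset.sup_le fun x hx => hVC x (hB.sub _ hx)))
  by_contra hne
  have hY1 : ∃ x ∈ Y j, ¬ e x ≤ H ⊔ (B (Fin.castLE hkt j)).sup e := by
    by_contra hall
    push Not at hall
    refine hne ?_
    rw [← hY.span j]
    exact sup_le le_sup_left (Finset.sup_le hall)
  obtain ⟨x, hxY, hxB⟩ := hY1
  have hnew := hB.move (Fin.castLE hkt j) (hY.sub j hxY) hxB
  have hxBj : x ∉ B (Fin.castLE hkt j) := fun h => hxB ((le_sup (f := e) h).trans le_sup_right)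
  refine absurd (hmax _ hnew) (not_le.2 (sum_lt_sum (fun i _ => ?_) ⟨j, mem_univ j, ?_⟩))
  · refine card_le_card fun y hy => ?_
    rw [mem_inter] at hy ⊢
    refine ⟨?_, hy.2⟩
    split_ifs with hij
    · have : i = j := Fin.castLE_injective hkt hij
      subst this
      exact mem_insert_of_mem hy.1
    · refine mem_erase.2 ⟨?_, hy.1⟩
      rintro rfl
      exact hij (congrArg _ (hY.disj y i j hy.2 hxY))
  · simp only [if_true]
    refine card_lt_card ⟨inter_subset_inter_right (subset_insert _ _), fun h => hxBj ?_⟩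
    exact (mem_inter.1 (h (mem_inter.2 ⟨mem_insert_self _ _, hxY⟩))).1

/-- the spans of the blocks can be made nested -/
theorem Cover.nested {φ : L → ℕ} (hφ : StrictMono φ) {k : ℕ} {V : Finset α}
    {B0 : Fin k → Finset α} (h0 : Cover e H k V B0) :
    ∃ B, Cover e H k V B ∧ ∀ i j, φ (H ⊔ (B i).sup e) ≤ φ (H ⊔ (B j).sup e) →
      H ⊔ (B i).sup e ≤ H ⊔ (B j).sup e := by
  classical
  have hbd : ∀ B : Fin k → Finset α, Cover e H k V B → ∑ j : Fin k, 2 ^ φ (H ⊔ (B j).sup e) ≤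
      ∑ _j : Fin k, 2 ^ φ (H ⊔ V.sup e) := fun B hB => sum_le_sum fun j _ =>
    Nat.pow_le_pow_right (by norm_num) (hφ.monotone (sup_le_sup_left (sup_mono (hB.sub j)) _))
  obtain ⟨B, hB, hm⟩ := Nat.findGreatest_spec (P := fun m => ∃ B, Cover e H k V B ∧
    ∑ j : Fin k, 2 ^ φ (H ⊔ (B j).sup e) = m) (n := ∑ _j : Fin k, 2 ^ φ (H ⊔ V.sup e))
    (m := ∑ j : Fin k, 2 ^ φ (H ⊔ (B0 j).sup e)) (hbd B0 h0) ⟨B0, h0, rfl⟩
  have hmax : ∀ B', Cover e H k V B' → ∑ j : Fin k, 2 ^ φ (H ⊔ (B' j).sup e) ≤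
      ∑ j : Fin k, 2 ^ φ (H ⊔ (B j).sup e) := by
    intro B' h
    rw [hm]
    exact Nat.le_findGreatest (hbd B' h) ⟨B', h, rfl⟩
  refine ⟨B, hB, fun i j hij => ?_⟩
  by_contra hne
  have hY1 : ∃ x ∈ B i, ¬ e x ≤ H ⊔ (B j).sup e := by
    by_contra hall
    push Not at hall
    exact hne (sup_le le_sup_left (Finset.sup_le hall))
  obtain ⟨x, hxi, hxB⟩ := hY1
  have hnew := hB.move j (hB.sub i hxi) hxB
  have hne' : i ≠ j := by
    rintro rfl
    exact hxB ((le_sup (f := e) hxi).trans le_sup_right)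
  refine absurd (hmax _ hnew) (not_le.2 ?_)
  rw [← add_sum_erase _ _ (mem_univ j), ← add_sum_erase _ _ (mem_univ j),
    ← add_sum_erase _ _ (mem_erase.2 ⟨hne', mem_univ i⟩),
    ← add_sum_erase _ _ (mem_erase.2 ⟨hne', mem_univ i⟩), ← add_assoc, ← add_assoc]
  refine add_lt_add_of_lt_of_le ?_ (sum_le_sum fun l hl => le_of_eq ?_)
  · have h1 : φ (H ⊔ (B j).sup e) < φ (H ⊔ (insert x (B j)).sup e) := by
      apply hφ
      refine lt_of_le_of_ne (sup_le_sup_left (sup_mono (subset_insert _ _)) _) fun h => hxB ?_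
      rw [h]
      exact (le_sup (f := e) (mem_insert_self x _)).trans le_sup_right
    have h2 : 2 * 2 ^ φ (H ⊔ (B j).sup e) ≤ 2 ^ φ (H ⊔ (insert x (B j)).sup e) := by
      rw [← pow_succ']
      exact Nat.pow_le_pow_right (by norm_num) h1
    have h3 : 2 ^ φ (H ⊔ (B i).sup e) ≤ 2 ^ φ (H ⊔ (B j).sup e) :=
      Nat.pow_le_pow_right (by norm_num) hij
    have h4 : 0 < 2 ^ φ (H ⊔ ((B i).erase x).sup e) := by positivity
    simp only [if_true, if_neg hne']
    omega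
  · have hli : l ≠ i := ne_of_mem_erase hl
    have hlj : l ≠ j := ne_of_mem_erase (mem_of_mem_erase hl)
    have : x ∉ B l := fun h => hli (hB.disj x l i h hxi)
    rw [if_neg hlj, erase_eq_of_notMem this]

/-- **Theorem A** (lattice form) -/
theorem main_partition {φ : L → ℕ} (hφ : StrictMono φ) (S : Finset α) (hS : ∀ x ∈ S, ¬ e x ≤ ⊥) :
    ∃ (m : ℕ) (K : L) (B : Fin (m + 1) → Finset α) (O : Fin m → Finset α) (V1 V2 : Finset α),
      (∀ x, x ∈ V1 ↔ x ∈ S ∧ e x ≤ K) ∧ (∀ x, x ∈ V2 ↔ x ∈ S ∧ ¬ e x ≤ K) ∧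
      Cover e ⊥ (m + 1) V1 B ∧ (∀ j : Fin m, (B j.castSucc).sup e = K) ∧ Cover e K m V2 O ∧
      (∀ i j, φ (K ⊔ (O i).sup e) ≤ φ (K ⊔ (O j).sup e) → K ⊔ (O i).sup e ≤ K ⊔ (O j).sup e) ∧
      (S.Nonempty → 0 < m) ∧ (0 < m → K ≠ ⊥) := by
  classical
  rcases S.eq_empty_or_nonempty with rfl | hne
  · exact ⟨0, ⊥, fun _ => ∅, fun _ => ∅, ∅, ∅, by simp, by simp, ⟨fun _ => CI.empty, by simp, by simp⟩,
      fun j => j.elim0, ⟨fun _ => CI.empty, by simp, by simp⟩, fun i => i.elim0, by simp, by simp⟩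
  -- the largest `m` with `m` disjoint sets with common span
  have hex : ∃ Y C, C ≠ ⊥ ∧ Span e ⊥ 1 S C Y := by
    obtain ⟨x, hx⟩ := hne
    refine ⟨fun _ => S, S.sup e, fun h => hS x hx ?_, fun _ => by simp, fun _ => subset_rfl,
      fun _ i j _ _ => Subsingleton.elim _ _⟩
    rw [← h]
    exact le_sup (f := e) hx
  have hcard : ∀ k Y C, C ≠ ⊥ → Span e ⊥ k S C Y → k ≤ S.card := by
    intro k Y C hC hY
    have hn : ∀ j, (Y j).Nonempty := by
      intro j
      rw [nonempty_iff_ne_empty]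
      intro h
      have := hY.span j
      rw [h] at this
      exact hC (by simpa using this.symm)
    choose f hf using fun j => hn j
    have hinj : Function.Injective f := fun i j hij => hY.disj (f i) i j (hf i) (hij ▸ hf j)
    have := card_le_card_of_injOn (s := (univ : Finset (Fin k))) (t := S) f
      (fun j _ => hY.sub j (hf j)) (hinj.injOn)
    simpa using this
  obtain ⟨Y0, C0, hC0, hY0⟩ := hex
  have hm0 := Nat.findGreatest_spec (P := fun k => ∃ Y C, C ≠ ⊥ ∧ Span e ⊥ k S C Y)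
    (hcard 1 Y0 C0 hC0 hY0) ⟨Y0, C0, hC0, hY0⟩
  have hm1 : 1 ≤ Nat.findGreatest (fun k => ∃ Y C, C ≠ ⊥ ∧ Span e ⊥ k S C Y) S.card :=
    Nat.le_findGreatest (hcard 1 Y0 C0 hC0 hY0) ⟨Y0, C0, hC0, hY0⟩
  have hmmax : ∀ k Y C, C ≠ ⊥ → Span e ⊥ k S C Y →
      k ≤ Nat.findGreatest (fun k => ∃ Y C, C ≠ ⊥ ∧ Span e ⊥ k S C Y) S.card :=
    fun k Y C hC hY => Nat.le_findGreatest (hcard k Y C hC hY) ⟨Y, C, hC, hY⟩
  generalize Nat.findGreatest (fun k => ∃ Y C, C ≠ ⊥ ∧ Span e ⊥ k S C Y) S.card = m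
    at hm0 hm1 hmmax
  obtain ⟨Y1, C1, hC1, hY1⟩ := hm0
  -- the largest `K`
  have hbd : ∀ n, (∃ Y C, (C ≠ ⊥ ∧ Span e ⊥ m S C Y) ∧ (S.filter (fun x => e x ≤ C)).card = n) →
      n ≤ S.card := by
    rintro n ⟨Y, C, -, rfl⟩
    exact card_filter_le _ _
  obtain ⟨Y, K, ⟨hK, hY⟩, hn⟩ := Nat.findGreatest_spec (P := fun n => ∃ Y C,
    (C ≠ ⊥ ∧ Span e ⊥ m S C Y) ∧ (S.filter (fun x => e x ≤ C)).card = n)
    (hbd _ ⟨Y1, C1, ⟨hC1, hY1⟩, rfl⟩) ⟨Y1, C1, ⟨hC1, hY1⟩, rfl⟩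
  have hKmax : ∀ Y' C', C' ≠ ⊥ → Span e ⊥ m S C' Y' →
      (S.filter (fun x => e x ≤ C')).card ≤ (S.filter (fun x => e x ≤ K)).card := by
    intro Y' C' h h'
    rw [hn]
    exact Nat.le_findGreatest (card_filter_le _ _) ⟨Y', C', ⟨h, h'⟩, rfl⟩
  have hYK : ∀ j, ∀ x ∈ Y j, e x ≤ K := fun j x hx =>
    (le_sup (f := e) hx).trans ((hY.span j) ▸ le_sup_right)
  set V1 := S.filter (fun x => e x ≤ K) with hV1
  set V2 := S.filter (fun x => ¬ e x ≤ K) with hV2
  -- `V1`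
  have h1 : ∃ B, Cover e ⊥ (m + 1) V1 B := by
    rcases cover_or_span e (m + 1) V1.card V1 ⊥ le_rfl (fun x hx => hS x (mem_filter.1 hx).1) with
      h | h | ⟨Y', C', hC', hY'⟩
    · exact h
    · omega
    · have := hmmax _ _ _ hC' ⟨hY'.span, fun j x hx => (mem_filter.1 (hY'.sub j hx)).1, hY'.disj⟩
      omega
  obtain ⟨B0, hB0⟩ := h1
  obtain ⟨B, hB, hBs⟩ := hB0.spanning (Nat.le_succ m) (C := K) (Y := Y)
    ⟨hY.span, fun j x hx => mem_filter.2 ⟨hY.sub j hx, hYK j x hx⟩, hY.disj⟩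
    (fun x hx => (mem_filter.1 hx).2)
  -- `V2`
  have h2 : ∃ O, Cover e K m V2 O := by
    rcases cover_or_span e m V2.card V2 K le_rfl (fun x hx => (mem_filter.1 hx).2) with
      h | h | ⟨Y', C', hC', hY'⟩
    · exact h
    · omega
    · exfalso
      have hKC' : K ≤ C' := (hY'.span ⟨0, hm1⟩) ▸ le_sup_left
      have hnew : Span e ⊥ m S C' (fun j => Y j ∪ Y' j) := by
        refine ⟨fun j => ?_, fun j x hx => ?_, fun x i j hi hj => ?_⟩
        · rw [sup_union, ← sup_assoc, hY.span j, hY'.span j]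
        · rcases mem_union.1 hx with hx | hx
          · exact hY.sub j hx
          · exact (mem_filter.1 (hY'.sub j hx)).1
        · rcases mem_union.1 hi with hi | hi <;> rcases mem_union.1 hj with hj | hj
          · exact hY.disj x i j hi hj
          · exact absurd (hYK _ _ hi) (mem_filter.1 (hY'.sub _ hj)).2
          · exact absurd (hYK _ _ hj) (mem_filter.1 (hY'.sub _ hi)).2
          · exact hY'.disj x i j hi hj
      refine absurd (hKmax _ C' (fun h => hK ?_) hnew) (not_le.2 ?_)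
      · rw [h] at hKC'
        exact le_bot_iff.1 hKC'
      · apply card_lt_card
        refine ⟨fun x hx => mem_filter.2 ⟨(mem_filter.1 hx).1, (mem_filter.1 hx).2.trans hKC'⟩,
          fun hsub => ?_⟩
        have hemp : Y' ⟨0, hm1⟩ = ∅ := by
          refine eq_empty_of_forall_notMem fun x hx => ?_
          have hx2 := mem_filter.1 (hY'.sub _ hx)
          have hxC' : e x ≤ C' := (le_sup (f := e) hx).trans ((hY'.span ⟨0, hm1⟩) ▸ le_sup_right)
          exact hx2.2 (mem_filter.1 (hsub (mem_filter.2 ⟨hx2.1, hxC'⟩))).2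
        have := hY'.span ⟨0, hm1⟩
        rw [hemp] at this
        exact hC' (by simpa using this.symm)
  obtain ⟨O0, hO0⟩ := h2
  obtain ⟨O, hO, hOn⟩ := hO0.nested hφ
  refine ⟨m, K, B, O, V1, V2, by simp [hV1], by simp [hV2], hB, fun j => ?_, hO, hOn,
    fun _ => hm1, fun _ => hK⟩
  have := hBs j
  rw [bot_sup_eq] at this
  exact this

end Pool.Agent.Helper82.Part
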